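import Mathlib
import Pool.Agent.Helper4.FSS.Defs

/-!
Block FSS-C: natural binary labels (helper14).
-/

set_option autoImplicit false

namespace Pool.Helper4.FSS

open Set

/-- There are complete prefix codes of every positive size. -/
theorem exists_code (m : ℕ) (hm : 1 ≤ m) : ∃ u : Fin m → List Bool, IsCode u := by
  induction m, hm using Nat.le_induction with
  | base =>
    refine ⟨fun _ => [], fun η => ⟨0, ⟨η, rfl⟩, fun j _ => Subsingleton.elim _ _⟩⟩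
  | succ m _ ih =>
    obtain ⟨u, hu⟩ := ih
    refine ⟨Fin.cons [true] (fun i => false :: u i), fun η => ?_⟩
    have hη : η = Stream'.cons η.head η.tail := (Stream'.eta η).symm
    rcases hb : η.head with _ | _
    · obtain ⟨i, ⟨ξ, hξ⟩, huniq⟩ := hu η.tail
      refine ⟨i.succ, ⟨ξ, ?_⟩, ?_⟩
      · rw [Fin.cons_succ, Stream'.cons_append_stream, ← hξ, ← hb]
        exact hη
      · intro j hj
        obtain ⟨ξ', hξ'⟩ := hj
        refine Fin.cases ?_ ?_ j hξ'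
        · intro h
          rw [Fin.cons_zero, Stream'.cons_append_stream] at h
          rw [h, Stream'.head_cons] at hb
          exact absurd hb (by simp)
        · intro j' h
          rw [Fin.cons_succ, Stream'.cons_append_stream] at h
          congr 1
          apply huniq
          refine ⟨ξ', ?_⟩
          rw [h, Stream'.tail_cons]
    · refine ⟨0, ⟨η.tail, ?_⟩, ?_⟩
      · rw [Fin.cons_zero, Stream'.cons_append_stream, Stream'.nil_append_stream, ← hb]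
        exact hη
      · intro j hj
        obtain ⟨ξ', hξ'⟩ := hj
        refine Fin.cases ?_ ?_ j hξ'
        · intro _
          rfl
        · intro j' h
          rw [Fin.cons_succ, Stream'.cons_append_stream] at h
          rw [h, Stream'.head_cons] at hb
          exact absurd hb (by simp)

/-- Labels for a finite nonempty set. -/
theorem exists_label {S : Type*} {F : Set S} (hF : F.Finite) (hne : F.Nonempty) :
    ∃ code : S → List Bool, ∀ η : Stream' Bool, ∃! r, r ∈ F ∧ ∃ ξ, η = code r ++ₛ ξ := by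
  classical
  have hfin : Finite F := hF
  obtain ⟨m, ⟨e⟩⟩ := Finite.exists_equiv_fin F
  have hm : 1 ≤ m := by
    obtain ⟨x, hx⟩ := hne
    have := (e ⟨x, hx⟩).2
    omega
  obtain ⟨u, hu⟩ := exists_code m hm
  refine ⟨fun r => if h : r ∈ F then u (e ⟨r, h⟩) else [], fun η => ?_⟩
  obtain ⟨i, ⟨ξ, hξ⟩, huniq⟩ := hu η
  refine ⟨(e.symm i : S), ⟨(e.symm i).2, ξ, ?_⟩, ?_⟩
  · simp only
    rw [dif_pos (e.symm i).2]
    rw [Subtype.coe_eta, Equiv.apply_symm_apply]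
    exact hξ
  · rintro r ⟨hr, ξ', hξ'⟩
    simp only at hξ'
    rw [dif_pos hr] at hξ'
    have := huniq (e ⟨r, hr⟩) ⟨ξ', hξ'⟩
    rw [← this, Equiv.symm_apply_apply]

theorem Sys.isNode_ch {S N : Type*} {X : Sys S N} {B C : N} (hB : X.IsNode B)
    (hC : C ∈ X.ch B) : X.IsNode C := by
  obtain ⟨n, hn⟩ := hB
  exact ⟨n + 1, B, hn, hC⟩

/-- The labels. -/
theorem exists_c {S N : Type*} (X : Sys S N) (hX : X.Good) (Q : N → Set S)
    (Q_sub : ∀ B, X.IsNode B → Q B ⊆ X.pts B)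
    (Q_fin : ∀ B, X.IsNode B → (Q B).Finite)
    (Q_nat : ∀ B B', X.IsNode B → X.IsNode B' → ∀ h ∈ X.sim B B', ∀ q ∈ Q B, h q ∈ Q B')
    (pa : N → S → S)
    (pa_mem : ∀ B, X.IsNode B → ∀ C ∈ X.ch B, ∀ r ∈ Q C, pa B r ∈ Q B)
    (pa_nat : ∀ B B', X.IsNode B → X.IsNode B' → ∀ h ∈ X.sim B B', ∀ C ∈ X.ch B, ∀ r ∈ Q C,
        pa B' (h r) = h (pa B r))
    (stab : ∀ B, X.IsNode B → ∀ C ∈ X.ch B, ∀ r ∈ Q C, ∀ h ∈ X.sim B B,
        (h (pa B r) = pa B r ↔ h r = r))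
    (surj : ∀ B, X.IsNode B → ∀ q ∈ Q B, ∃ C ∈ X.ch B, ∃ r ∈ Q C, pa B r = q) :
    ∃ c : N → S → List Bool,
      (∀ B B', X.IsNode B → X.IsNode B' → ∀ h ∈ X.sim B B', ∀ C ∈ X.ch B, ∀ r ∈ Q C,
        c B' (h r) = c B r) ∧
      (∀ B, X.IsNode B → ∀ q ∈ Q B, ∀ η : Stream' Bool,
        ∃! r, (∃ C ∈ X.ch B, r ∈ Q C) ∧ pa B r = q ∧ ∃ ξ, η = c B r ++ₛ ξ) := by
  classical
  -- the fibres
  let Fib : N → S → Set S := fun B q => {r | (∃ C ∈ X.ch B, r ∈ Q C) ∧ pa B r = q}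
  have hFibfin : ∀ B, X.IsNode B → ∀ q, (Fib B q).Finite := by
    intro B hB q
    have h1 : (⋃ C ∈ X.ch B, Q C).Finite :=
      (hX.ch_fin B hB).biUnion fun C hC => Q_fin C (Sys.isNode_ch hB hC)
    refine h1.subset ?_
    rintro r ⟨⟨C, hC, hr⟩, _⟩
    exact mem_biUnion hC hr
  have hFibne : ∀ B, X.IsNode B → ∀ q ∈ Q B, (Fib B q).Nonempty := by
    intro B hB q hq
    obtain ⟨C, hC, r, hr, h⟩ := surj B hB q hq
    exact ⟨r, ⟨C, hC, hr⟩, h⟩
  have hFibpts : ∀ B, X.IsNode B → ∀ q, Fib B q ⊆ X.pts B := by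
    rintro B hB q r ⟨⟨C, hC, hr⟩, _⟩
    exact hX.ch_sub B hB C hC (Q_sub C (Sys.isNode_ch hB hC) hr)
  -- arrows map fibres to fibres
  have hFibmap : ∀ B B', X.IsNode B → X.IsNode B' → ∀ h ∈ X.sim B B', ∀ q, ∀ r ∈ Fib B q,
      h r ∈ Fib B' (h q) := by
    rintro B B' hB hB' h hh q r ⟨⟨C, hC, hr⟩, hq⟩
    obtain ⟨C', hC', k, hk, hkh⟩ := hX.res B B' hB hB' h hh C hC
    have hCn := Sys.isNode_ch hB hC
    have hCn' := Sys.isNode_ch hB' hC'
    refine ⟨⟨C', hC', ?_⟩, ?_⟩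
    · rw [← hkh r (Q_sub C hCn hr)]
      exact Q_nat C C' hCn hCn' k hk r hr
    · rw [pa_nat B B' hB hB' h hh C hC r hr, hq]
  -- pairs
  let P : Type _ := {p : N × S // X.IsNode p.1 ∧ p.2 ∈ Q p.1}
  let rel : P → P → Prop := fun p p' => ∃ h ∈ X.sim p.1.1 p'.1.1, h p.1.2 = p'.1.2
  have hrefl : ∀ p, rel p p := by
    intro p
    obtain ⟨h, hh, h1⟩ := hX.one p.1.1 p.2.1
    exact ⟨h, hh, h1 _ (Q_sub _ p.2.1 p.2.2)⟩
  have hsymm : ∀ p p', rel p p' → rel p' p := by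
    rintro p p' ⟨h, hh, hpq⟩
    obtain ⟨k, hk, hkh⟩ := hX.inv p.1.1 p'.1.1 p.2.1 p'.2.1 h hh
    refine ⟨k, hk, ?_⟩
    rw [← hpq]
    exact hkh _ (Q_sub _ p.2.1 p.2.2)
  have htrans : ∀ p p' p'', rel p p' → rel p' p'' → rel p p'' := by
    rintro p p' p'' ⟨h, hh, hpq⟩ ⟨k, hk, hqr⟩
    obtain ⟨l, hl, hlk⟩ := hX.comp p.1.1 p'.1.1 p''.1.1 p.2.1 p'.2.1 p''.2.1 h hh k hk
    refine ⟨l, hl, ?_⟩
    rw [hlk _ (Q_sub _ p.2.1 p.2.2), hpq, hqr]
  let st : Setoid P := ⟨rel, ⟨hrefl, fun {a b} => hsymm a b, fun {a b c} => htrans a b c⟩⟩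
  let rep : P → P := fun p => (Quotient.mk st p).out
  have hrep : ∀ p, rel p (rep p) := by
    intro p
    exact hsymm _ _ (Quotient.mk_out (s := st) p)
  have hrep_eq : ∀ p p', rel p p' → rep p = rep p' := by
    intro p p' h
    have : Quotient.mk st p = Quotient.mk st p' := Quotient.sound h
    simp only [rep, this]
  choose K hK1 hK2 using hrep
  -- codes of the fibres
  have hcode : ∀ p : P, ∃ code : S → List Bool, ∀ η : Stream' Bool,
      ∃! r, r ∈ Fib p.1.1 p.1.2 ∧ ∃ ξ, η = code r ++ₛ ξ := fun p =>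
    exists_label (hFibfin _ p.2.1 _) (hFibne _ p.2.1 _ p.2.2)
  choose code hcode using hcode
  let c : N → S → List Bool := fun B r =>
    if h : X.IsNode B ∧ pa B r ∈ Q B then code (rep ⟨(B, pa B r), h⟩) (K ⟨(B, pa B r), h⟩ r) else []
  have hc : ∀ (p : P) (r : S), pa p.1.1 r = p.1.2 → c p.1.1 r = code (rep p) (K p r) := by
    intro p r hr
    have h : X.IsNode p.1.1 ∧ pa p.1.1 r ∈ Q p.1.1 := by rw [hr]; exact p.2
    have hp : (⟨(p.1.1, pa p.1.1 r), h⟩ : P) = p := Subtype.ext (Prod.ext rfl hr)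
    simp only [c]
    rw [dif_pos h, hp]
  refine ⟨c, ?_, ?_⟩
  · -- naturality
    intro B B' hB hB' h hh C hC r hr
    have hq : pa B r ∈ Q B := pa_mem B hB C hC r hr
    have hpn : pa B' (h r) = h (pa B r) := pa_nat B B' hB hB' h hh C hC r hr
    have hq' : h (pa B r) ∈ Q B' := Q_nat B B' hB hB' h hh _ hq
    let p : P := ⟨(B, pa B r), hB, hq⟩
    let p' : P := ⟨(B', h (pa B r)), hB', hq'⟩
    have hpp' : rel p p' := ⟨h, hh, rfl⟩
    have e1 : c B r = code (rep p) (K p r) := hc p r rfl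
    have e2 : c B' (h r) = code (rep p') (K p' (h r)) := hc p' (h r) hpn
    have hreq : rep p' = rep p := (hrep_eq p p' hpp').symm
    rw [e1, e2, hreq]
    congr 1
    have hk1 : K p ∈ X.sim B (rep p).1.1 := hK1 p
    have hk2 : K p (pa B r) = (rep p).1.2 := hK2 p
    have hk1' : K p' ∈ X.sim B' (rep p).1.1 := by
      have := hK1 p'
      rw [hreq] at this
      exact this
    have hk2' : K p' (h (pa B r)) = (rep p).1.2 := by
      have := hK2 p'
      rw [hreq] at this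
      exact this
    have hR := (rep p).2.1
    obtain ⟨ki, hki, hkik⟩ := hX.inv B (rep p).1.1 hB hR (K p) hk1
    obtain ⟨l1, hl1, hl1e⟩ := hX.comp _ _ _ hR hB hB' ki hki h hh
    obtain ⟨l, hl, hle⟩ := hX.comp _ _ _ hR hB' hR l1 hl1 (K p') hk1'
    have hrB : r ∈ X.pts B := hX.ch_sub B hB C hC (Q_sub C (Sys.isNode_ch hB hC) hr)
    have hqB : pa B r ∈ X.pts B := Q_sub B hB hq
    have hval : ∀ x ∈ X.pts B, l (K p x) = K p' (h x) := by
      intro x hx
      have hkx : K p x ∈ X.pts (rep p).1.1 := (hX.maps B _ hB hR _ hk1).mapsTo hx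
      rw [hle _ hkx, hl1e _ hkx, hkik x hx]
    have hr0 : K p r ∈ Fib (rep p).1.1 (K p (pa B r)) :=
      hFibmap B _ hB hR (K p) hk1 (pa B r) r ⟨⟨C, hC, hr⟩, rfl⟩
    obtain ⟨⟨C0, hC0, hrC0⟩, hpa0⟩ := hr0
    have hfix : l (pa (rep p).1.1 (K p r)) = pa (rep p).1.1 (K p r) := by
      rw [hpa0, hval _ hqB, hk2', hk2]
    have := (stab (rep p).1.1 hR C0 hC0 (K p r) hrC0 l hl).1 hfix
    rw [hval r hrB] at this
    exact this
  · -- the labels of a fibre form a complete code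
    intro B hB q hq η
    let p : P := ⟨(B, q), hB, hq⟩
    have hR := (rep p).2.1
    have hk1 : K p ∈ X.sim B (rep p).1.1 := hK1 p
    have hk2 : K p q = (rep p).1.2 := hK2 p
    obtain ⟨r0, ⟨hr0, ξ, hξ⟩, huniq⟩ := hcode (rep p) η
    obtain ⟨ki, hki, hkik⟩ := hX.inv B (rep p).1.1 hB hR (K p) hk1
    have hbij := hX.maps B _ hB hR _ hk1
    have hqB : q ∈ X.pts B := Q_sub B hB hq
    have hki2 : ki (rep p).1.2 = q := by rw [← hk2]; exact hkik q hqB
    have hr0' : ki r0 ∈ Fib B q := by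
      have := hFibmap _ B hR hB ki hki _ r0 hr0
      rw [hki2] at this
      exact this
    have hkr0 : K p (ki r0) = r0 := by
      obtain ⟨x, hx, hxr⟩ := hbij.surjOn (hFibpts _ hR _ hr0)
      rw [← hxr, hkik x hx]
    refine ⟨ki r0, ⟨hr0'.1, hr0'.2, ξ, ?_⟩, ?_⟩
    · have e1 : c B (ki r0) = code (rep p) (K p (ki r0)) := hc p (ki r0) hr0'.2
      rw [e1, hkr0]
      exact hξ
    · rintro r ⟨hrC, hrq, ξ', hξ'⟩
      have e1 : c B r = code (rep p) (K p r) := hc p r hrq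
      rw [e1] at hξ'
      have hrF : r ∈ Fib B q := ⟨hrC, hrq⟩
      have hm : K p r ∈ Fib (rep p).1.1 (rep p).1.2 := by
        have := hFibmap B _ hB hR (K p) hk1 q r hrF
        rw [hk2] at this
        exact this
      have h2 := huniq (K p r) ⟨hm, ξ', hξ'⟩
      rw [← h2, hkik r (hFibpts B hB q hrF)]

end Pool.Helper4.FSS
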